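import Pool.Agent.H49.RP2

set_option autoImplicit false

namespace Pool.Agent.Results.MP_d44141_an.NotPP

open Pool.Agent.H49.RP MeasureTheory Polynomial

/-- `ϑ` is a random substitution: nonempty finite sets of nonempty words. -/
def RandSub (ϑ : Fin 2 → Finset (List (Fin 2))) : Prop :=
  ∀ a, (ϑ a).Nonempty ∧ ∀ u ∈ ϑ a, u ≠ []

/-- `ϑ` is compatible with substitution matrix `M`. -/
def SubMat (ϑ : Fin 2 → Finset (List (Fin 2))) (M : Matrix (Fin 2) (Fin 2) ℕ) : Prop :=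
  ∀ b, ∀ u ∈ ϑ b, ∀ a, u.count a = M a b

/-- The characteristic polynomial over `ℚ`. -/
noncomputable def chi (M : Matrix (Fin 2) (Fin 2) ℕ) : ℚ[X] :=
  (M.map (Nat.cast : ℕ → ℚ)).charpoly

/-- `M` is primitive, has an irreducible characteristic polynomial over `ℚ`, and has a real
eigenvalue `> 1` with all other eigenvalues of modulus `< 1`. -/
def IrrPisot (M : Matrix (Fin 2) (Fin 2) ℕ) : Prop :=
  (∃ k, 0 < k ∧ ∀ a b, 0 < (M ^ k) a b) ∧ Irreducible (chi M) ∧
    ∃ l : ℝ, 1 < l ∧ aeval l (chi M) = 0 ∧ ∀ z : ℂ, aeval z (chi M) = 0 → z = l ∨ ‖z‖ < 1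

/-- `Y` is a minimal subsystem of `X`. -/
def MinSub (X Y : Set (ℤ → Fin 2)) : Prop :=
  Y ⊆ X ∧ Y.Nonempty ∧ IsClosed Y ∧ sh '' Y = Y ∧
    ∀ Z ⊆ Y, Z.Nonempty → IsClosed Z → sh '' Z ⊆ Z → Z = Y

/-- The space `L²(μ)`. -/
abbrev L2 (μ : Measure (ℤ → Fin 2)) : Type := Lp ℂ 2 μ

/-- The eigenfunctions of the Koopman operator (together with `0`). -/
def Eig (μ : Measure (ℤ → Fin 2)) : Set (L2 μ) :=
  {f | ∃ c : ℂ, ∀ᵐ x ∂μ, f (sh x) = c * f x}

/-- The linear span of the eigenfunctions. -/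
def EigSpan (μ : Measure (ℤ → Fin 2)) : Set (L2 μ) := Submodule.span ℂ (Eig μ)

/-- For every invariant Borel probability measure on `Y` the eigenfunctions span a dense
subspace of `L²`. -/
def PurePoint (Y : Set (ℤ → Fin 2)) : Prop :=
  ∀ (μ : Measure (ℤ → Fin 2)) [IsProbabilityMeasure μ], μ Yᶜ = 0 → MeasurePreserving sh μ μ →
    Dense (EigSpan μ)

theorem cp : chi !![1, 1; 1, 0] = X ^ 2 - X - 1 := by
  rw [chi, Matrix.charpoly_fin_two]
  simp [Matrix.trace_fin_two, Matrix.det_fin_two, sub_eq_add_neg]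

theorem result : ∃ (ϑ : Fin 2 → Finset (List (Fin 2))) (M : Matrix (Fin 2) (Fin 2) ℕ),
    RandSub ϑ ∧ SubMat ϑ M ∧ IrrPisot M ∧ ∃ Y, MinSub (RS ϑ) Y ∧ ¬ PurePoint Y := by
  obtain ⟨Y, h0, h1, h2, h3, h4, μ, _, h5, h6, h7⟩ := main
  refine ⟨fib, !![1, 1; 1, 0], by unfold RandSub; decide, by unfold SubMat; decide,
    ⟨⟨2, two_pos, by decide⟩, ?_, Real.goldenRatio, Real.one_lt_goldenRatio, ?_, fun z hz => ?_⟩,
    Y, ⟨h0, h1, h2, h3, h4⟩, fun h => h7 (h μ h5 h6)⟩
  · rw [cp]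
    have d : (X ^ 2 - X - 1 : ℚ[X]).natDegree = 2 := by compute_degree!
    rw [irreducible_iff_roots_eq_zero_of_degree_le_three d.ge (by omega),
      Multiset.eq_zero_iff_forall_notMem]
    intro r hr
    have := (mem_roots'.mp hr).2
    simp only [IsRoot, eval_sub, eval_pow, eval_X, eval_one] at this
    have h5 : IsSquare (5 : ℚ) := ⟨2 * r - 1, by linear_combination (-4) * this⟩
    norm_num at h5
  · rw [cp]; simp [Real.goldenRatio_sq]
  · rw [cp] at hz
    simp only [map_sub, map_pow, aeval_X, map_one] at hz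
    have a : (Real.goldenRatio : ℂ) + Real.goldenConj = 1 := by
      exact_mod_cast Real.goldenRatio_add_goldenConj
    have b : (Real.goldenRatio : ℂ) * Real.goldenConj = -1 := by
      exact_mod_cast Real.goldenRatio_mul_goldenConj
    have : (z - Real.goldenRatio) * (z - Real.goldenConj) = 0 := by
      linear_combination hz - z * a + b
    rcases mul_eq_zero.mp this with h | h
    · exact Or.inl (sub_eq_zero.mp h)
    · right
      rw [sub_eq_zero.mp h, Complex.norm_real, Real.norm_eq_abs, abs_lt]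
      exact ⟨Real.neg_one_lt_goldenConj, Real.goldenConj_neg.trans one_pos⟩

end Pool.Agent.Results.MP_d44141_an.NotPP
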